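import Pool.Agent.V1178.FH.Alb

/-!
# Albanese kernels of surfaces: bounded dimension, commuting correspondences, free groups

Let `P` be a class of surfaces over a field `k` (for example all smooth projective surfaces over
`ℚ̄`). Each of the following conditions is equivalent to the vanishing of the Albanese kernel
`F^2 CH_0(S)_ℚ` for all surfaces `S` in `P`:

* on all surfaces `X` the cycles which come from the Albanese kernels of surfaces in `P` contain at
  most `D` linearly independent ones, `D` independent of `X` (if `P` contains all surfaces: the
  dimension of the Albanese kernel is at most `D`);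
* for all surfaces `X` the self-correspondences of `X` which factor through surfaces in `P` commute
  on the Albanese kernel, or satisfy some nonzero multilinear polynomial identity there;
* for all surfaces `X` and self-correspondences `W_0`, `W_1` of `X` which factor through surfaces in
  `P` and satisfy `W_i ∘ W_i = 0`, the automorphisms `1 + W_0`, `1 + W_1` of the Chow motive of `X`
  do not generate freely a free group of automorphisms of the Albanese kernel.
-/

set_option autoImplicit false

open CategoryTheory AlgebraicGeometry

universe u v w

namespace Pool.Agent.Results.MP_2eeeac_ag.FreeSubgroups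

open Pool.Agent.H914 Pool.Agent.H914.VarClass Pool.Agent.H914.VarClass.Obj Pool.Agent.W492.BB
  Pool.Agent.TH133 Pool.Agent.Y152.AS Pool.Agent.V1157.KF Pool.Agent.V1157.RC Pool.Agent.V1178.FH

/-- **Injectivity of the Albanese map for surfaces.** Let `P` be a class of surfaces with
sufficiently general complete intersections in `S × S` and in the powers of `S` (`HasIntersection`
and `HasPower`, consequences of the theorem of Bertini). The six conditions are equivalent. -/
theorem result {k : Type u} [Field k] {𝒱 : VarClass k} {C : TheoryData.{u, v, 0} 𝒱 ℚ}
    [IsChowProj C] {K : Type w} [Field K] (H : WeilTheoryData.{u, v, w} C K) [IsWeilProj H]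
    (P : 𝒱.Obj → Prop)
    (hI : ∀ S : 𝒱.Obj, P S → S.dim = 2 → HasIntersection C 2 S S)
    (hB : ∀ (S : 𝒱.Obj) (N : ℕ), P S → S.dim = 2 → HasPower C 2 N S) :
    List.TFAE (AlbInjective C P :: conditions P 2 (albSub C)) :=
  alb_all H hI hB

end Pool.Agent.Results.MP_2eeeac_ag.FreeSubgroups
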