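import Pool.Agent.V11182.GA.Main

/-!
# Albanese kernels: powers, eigenvalues, ranks and group actions of correspondences

Fix the dimension `n`. For a variety `X` of dimension `n` let `F^2(X)` be the kernel of the Albanese
map on the zero-cycles of degree zero (with rational coefficients). It is shown that `F^2(X) = 0` for
all `X` of dimension `n` as soon as there is a number `D` such that every single self-correspondence
`W` of degree zero of such a variety `X` satisfies a very weak condition on `F^2(X)`: short orbits,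
no nilpotency of index exactly `D + 1`, at most `D` rational eigenvalues, or rank at most `D`. It is
also equivalent to the statement that one group `G`, which may be any group with a nontrivial finite
dimensional representation over `ℚ`, for example any finite group `G ≠ 1`, has no nontrivial actions
on the groups `F^2(X)` by correspondences.
-/

set_option autoImplicit false

open CategoryTheory AlgebraicGeometry

universe u v w

namespace Pool.Agent.Results.MP_2eeeac_ag.GroupActionsAndPowers

open Pool.Agent.H914 Pool.Agent.H914.VarClass Pool.Agent.H914.VarClass.Obj Pool.Agent.W492.BB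
  Pool.Agent.W550.Corr Pool.Agent.TH133 Pool.Agent.Y148.BB Pool.Agent.V1157.KF
  Pool.Agent.V11182.GA
open Pool.Agent.V1157.RC (graph_mem)

section defs

variable {k : Type u} [Field k] {𝒱 : VarClass k} {C : TheoryData.{u, v, 0} 𝒱 ℚ} {K : Type w}
    [Field K] (H : WeilTheoryData.{u, v, w} C K)

/-- `F^2(X)` with rational coefficients, for `X` of dimension `n`: the class `x` is a zero-cycle of
degree zero (the class of `x` in the cohomology is zero) in the kernel of the Albanese map: it is
mapped to zero by all correspondences `W ∈ CH^1(X × Y)`, `Y` any variety (these map zero-cycles on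
`X` to divisor classes on `Y`). -/
def AlbKer (n : ℕ) (X : 𝒱.Obj) (x : C.A X) : Prop :=
  C.Deg n x ∧ H.cl x = 0 ∧ ∀ (Y : 𝒱.Obj) (W : C.A (X.prod Y)), C.Deg 1 W → C.act W x = 0

/-- The Albanese maps of all varieties of dimension `n` are injective modulo torsion. -/
def AllInjective (n : ℕ) : Prop := ∀ (X : 𝒱.Obj) (x : C.A X), X.dim = n → AlbKer H n X x → x = 0

/-- The self-correspondences of degree zero of the varieties of dimension `n`. -/
def Self (C : TheoryData.{u, v, 0} 𝒱 ℚ) (n : ℕ) (X : 𝒱.Obj) (W : C.A (X.prod X)) : Prop :=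
  C.Deg n W

end defs

section proofs

variable {k : Type u} [Field k] {𝒱 : VarClass k} {C : TheoryData.{u, v, 0} 𝒱 ℚ}
  [hC : IsChowProj C] {K : Type w} [Field K] {H : WeilTheoryData.{u, v, w} C K}
  [hH : IsWeilProj H] {X Y : 𝒱.Obj} {n : ℕ}

include hC hH in
theorem albKer_act {Γ : C.A (X.prod Y)} (hX : X.dim = n) (hY : Y.dim = n) (hΓ : C.Deg n Γ)
    {x : C.A X} (hx : AlbKer H n X x) : AlbKer H n Y (C.act Γ x) := by
  obtain ⟨h1, h2, h3⟩ := hx
  have e1 : Γ ∈ C.gr (X.prod Y) (X.dim + (0 : ℤ)) := gr_congr (by rw [hX]; ring) hΓ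
  refine ⟨?_, ?_, fun Z W hW => ?_⟩
  · have h4 := act_mem' C e1 h1
    exact gr_congr (by ring) h4
  · rw [TheoryData.act_apply, H.cl_push, map_mul, H.cl_pull, h2, map_zero, mul_zero, map_zero]
  · have e2 : W ∈ C.gr (Y.prod Z) (Y.dim + (1 - (Y.dim : ℤ))) := gr_congr (by ring) hW
    rw [← C.act_comp]
    exact h3 Z _ (gr_congr (by rw [hX, hY]; ring) (comp_mem C e1 e2))

end proofs

theorem result {k : Type u} [Field k] {𝒱 : VarClass k} {C : TheoryData.{u, v, 0} 𝒱 ℚ}
    [IsChowProj C] {K : Type w} [Field K] {H : WeilTheoryData.{u, v, w} C K} [IsWeilProj H]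
    (n : ℕ) (hP : ∀ (S : 𝒱.Obj) (N : ℕ), S.dim = n → HasPower C n N S) :
    (∀ D : ℕ, 1 ≤ D → (AllInjective H n ↔ ShortOrbits C (AlbKer H n) (Self C n) n D)) ∧
    (∀ D : ℕ, 1 ≤ D → (AllInjective H n ↔ NoIndex C (AlbKer H n) (Self C n) n D)) ∧
    (∀ D : ℕ, (AllInjective H n ↔ SmallRank C (AlbKer H n) (Self C n) n D)) ∧
    (∀ D : ℕ, 1 ≤ D → (AllInjective H n ↔ FewEigenvalues C (AlbKer H n) (Self C n) n D)) ∧
    (∀ (G : Type) [Monoid G] (N : ℕ) (ρ : G →* Matrix (Fin N) (Fin N) ℚ) (g : G), ρ g ≠ 1 →
      (AllInjective H n ↔ TrivialActions C (AlbKer H n) (Self C n) n G)) ∧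
    (∀ (G : Type) [Group G] [Finite G] [Nontrivial G],
      AllInjective H n ↔ TrivialActions C (AlbKer H n) (Self C n) n G) := by
  refine main ?_ ?_
  · intro h0 X hX W hW α hα
    rw [h0 X α hX hα, C.act_map_zero]
  · intro h0
    unfold AllInjective at h0
    push Not at h0
    obtain ⟨S, x, hS, hx, hx0⟩ := h0
    refine units_of (H := H) (m := n) (fun h => ⟨h.1, h.2.1⟩) ?_ ?_ hS hx hx0
      (fun N => hP S N hS) ?_
    · intro X Y f y hX hY hy
      rw [← C.act_cograph]
      exact albKer_act hY hX (gr_congr (by rw [hY]) (cograph_mem f)) hy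
    · intro X Y f x hX hY hx
      rw [← C.act_graph]
      exact albKer_act hX hY (gr_congr (by rw [hY]) (graph_mem f)) hx
    · intro V ι _ p c hV
      exact Submodule.sum_mem _ fun i _ => Submodule.sum_mem _ fun j _ =>
        Submodule.smul_mem _ _ (mt_mem hS hV _ _)

end Pool.Agent.Results.MP_2eeeac_ag.GroupActionsAndPowers
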