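import Pool.Agent.H255R.PC.Main

/-!
# Injectivity of the Albanese map for all varieties dominated by products of curves is equivalent
to the vanishing of the modified diagonals, on the Jacobians of the curves of a dominating class
-/

open CategoryTheory AlgebraicGeometry

universe u v

namespace Pool.Agent.Results.MP_2eeeac_ag.ModifiedDiagonal

open Pool.Agent.H914 Pool.Agent.H914.VarClass Pool.Agent.H914.VarClass.Obj Pool.Agent.W492.BB
  Pool.Agent.W550.Corr Pool.Agent.TH133 Pool.Agent.Y152.AS Pool.Agent.H255R.PC

/-- Consider a class of varieties closed under products (for example all smooth projective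
varieties over an algebraically closed field such as `ℚ̄`), with its Chow groups with rational
coefficients, the classes of its points, the theorem of the cube, and a class `𝒟` of curves which
dominates all curves, as in `Dominates` (over `ℚ̄`, by the theorem of Belyi, one may take for `𝒟` the
Galois covers of the projective line which are unramified outside three points: given the points of
`S × T`, take an irreducible curve on `S × T` through them, its normalisation `E`, and the Galois
closure of a Belyi map of `E`). The following statements are equivalent.

1. The Albanese map of every variety which is dominated by a product of curves is injective.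
2. The Albanese map of every product of two curves is injective.
3. `a × b = 0` in `CH_0(S × T)_ℚ`, for all divisor classes `a` and `b` of degree zero on curves `S`
   and `T`.
4. For every curve `V` and every divisor class `o` of degree one on `V` (rational coefficients),
   `Δ_* a = a × o + o × a` in `CH_0(V × V)_ℚ`, for all divisor classes `a` of degree zero on `V`.
5. For every curve `V` in `𝒟` the property in 4 holds for some divisor class `o` of degree one.
6. For every curve `V` in `𝒟` and all points `x`, `y` of `V`, the zero-cycles `(x, x) + (y, y)` and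
   `(x, y) + (y, x)` are equal in `CH_0(V × V)_ℚ`. -/
theorem result {k : Type u} [Field k] {𝒱 : VarClass k} {C : TheoryData.{u, v, 0} 𝒱 ℚ}
    [IsChowProj C] {pt : ∀ X : 𝒱.Obj, Set (C.A X)} (hp : IsPoints C pt)
    (hcube : TheoremOfTheCube C) {𝒟 : 𝒱.Obj → Prop} (hD : Dominates C pt 𝒟) :
    List.TFAE [
      ∀ X : 𝒱.Obj, IsDominatedByCurves C X → AlbInjective C X,
      ∀ S T : 𝒱.Obj, S.dim = 1 → T.dim = 1 → AlbInjective C (S.prod T),
      ∀ (S T : 𝒱.Obj) (a : C.A S) (b : C.A T), S.dim = 1 → T.dim = 1 → C.Deg 1 a → C.Deg 1 b →
        HasDegree C a 0 → HasDegree C b 0 → C.ext a b = 0,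
      ∀ (V : 𝒱.Obj) (o : C.A V), V.dim = 1 → C.Deg 1 o → HasDegree C o 1 →
        ModifiedDiagonalZero C V o,
      ∀ V : 𝒱.Obj, 𝒟 V → V.dim = 1 → ∃ o : C.A V, C.Deg 1 o ∧ HasDegree C o 1 ∧
        ModifiedDiagonalZero C V o,
      ∀ V : 𝒱.Obj, 𝒟 V → V.dim = 1 → ∀ x ∈ pt V, ∀ y ∈ pt V,
        C.ext x x + C.ext y y = C.ext x y + C.ext y x] :=
  main hp hcube hD

end Pool.Agent.Results.MP_2eeeac_ag.ModifiedDiagonal
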